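import Pool.Agent.LeoT.Stmts
import Pool.Agent.Helper29_LeoC.Sf4

/-!
# Squad LEOT, module NSP: integers of the cone in residue classes, upper bound
-/

set_option autoImplicit false

open NumberField NumberField.InfinitePlace NumberField.mixedEmbedding IsDedekindDomain Module
  MeasureTheory Filter
open Pool.Agent.LeoK Pool.Agent.LeoG Pool.Agent.LeoC

open scoped Classical

namespace Pool.Agent.LeoT.H89

/-- the norm of a vector of the mixed space -/
theorem norm_le_of_av {k : Type} [Field k] [NumberField k] (y : MS k) (R : ℝ) (hR : 0 ≤ R)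
    (h : ∀ v, av y v ≤ R) : ‖y‖ ≤ R := by
  rw [Prod.norm_def, max_le_iff]
  constructor
  · rw [pi_norm_le_iff_of_nonneg hR]
    intro w
    have h1 := h w.1
    rw [av, ev, dif_pos w.2, Complex.norm_real] at h1
    exact h1
  · rw [pi_norm_le_iff_of_nonneg hR]
    intro w
    have h1 := h w.1
    rw [av, ev, dif_neg (not_isReal_iff_isComplex.mpr w.2)] at h1
    exact h1

/-- in the cone the coordinates are bounded by the norm -/
theorem coord_le {k : Type} [Field k] [NumberField k] (Φ : CFrame k) (x : PS k) (hx : x ∈ Φ.F)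
    (t : ℝ) (ht : 0 < t) (hn : nr x ≤ t ^ finrank ℚ k) (v : InfinitePlace k) :
    x v ≤ |Φ.cF| * t := by
  have hn0 : finrank ℚ k ≠ 0 := (Module.finrank_pos (R := ℚ) (M := k)).ne'
  have hxv := Φ.pos x hx v
  have h0 : 0 ≤ |Φ.cF| := abs_nonneg _
  rw [← pow_le_pow_iff_left₀ hxv.le (by positivity) hn0]
  have h1 : x v ^ finrank ℚ k = ∏ w : InfinitePlace k, x v ^ w.mult := by
    rw [Finset.prod_pow_eq_pow_sum, sum_mult_eq]
  have h2 : (|Φ.cF|) ^ finrank ℚ k = ∏ w : InfinitePlace k, (|Φ.cF|) ^ w.mult := by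
    rw [Finset.prod_pow_eq_pow_sum, sum_mult_eq]
  calc x v ^ finrank ℚ k = ∏ w : InfinitePlace k, x v ^ w.mult := h1
    _ ≤ ∏ w : InfinitePlace k, ((|Φ.cF|) ^ w.mult * x w ^ w.mult) := by
        refine Finset.prod_le_prod (fun w _ => by positivity) fun w _ => ?_
        rw [← mul_pow]
        refine pow_le_pow_left₀ hxv.le ?_ _
        refine (Φ.cmp x hx v w).trans ?_
        exact mul_le_mul_of_nonneg_right (le_abs_self _) (Φ.pos x hx w).le
    _ = (|Φ.cF|) ^ finrank ℚ k * nr x := by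
        rw [Finset.prod_mul_distrib, ← h2]
        rfl
    _ ≤ (|Φ.cF|) ^ finrank ℚ k * t ^ finrank ℚ k := by
        exact mul_le_mul_of_nonneg_left hn (by positivity)
    _ = (|Φ.cF| * t) ^ finrank ℚ k := by rw [mul_pow]

/-- NSP. -/
theorem nsp (hcov : LeoC.CovStmt) (hsft : LeoK.SftStmt) (evs : LeoC.EvsStmt) : NspStmt := by
  intro k _ _ Φ
  have i1 : MeasurableAdd (MS k) := inferInstance
  have i3 : BorelSpace (MS k) := inferInstance
  have hHaar : (volume : Measure (MS k)).IsAddHaarMeasure := inferInstance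
  obtain ⟨K, hKd⟩ : ∃ K : Set (MS k), K = Metric.closedBall 0 |Φ.cF| := ⟨_, rfl⟩
  have hK : IsCompact K := by
    rw [hKd]
    exact isCompact_closedBall _ _
  have hD : 0 < cov k := by
    have h1 : volume (ZSpan.fundamentalDomain (latticeBasis k)) ≠ 0 :=
      ZSpan.measure_fundamentalDomain_ne_zero (latticeBasis k)
    have h2 : volume (ZSpan.fundamentalDomain (latticeBasis k)) < ⊤ :=
      (ZSpan.fundamentalDomain_isBounded (latticeBasis k)).measure_lt_top
    exact ENNReal.toReal_pos h1 h2.ne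
  have hV0 : 0 ≤ (volume K).toReal := ENNReal.toReal_nonneg
  refine ⟨((volume K).toReal + 1) / cov k, by positivity, fun I hI S => ?_⟩
  obtain ⟨κ, hκ, B', hB', hvol⟩ := hcov k I hI
  have hNpos : (0 : ℝ) < (Ideal.absNorm I : ℝ) := by
    have h1 : Ideal.absNorm I ≠ 0 := by
      rw [Ne, Ideal.absNorm_eq_zero_iff]
      exact hI
    exact_mod_cast Nat.pos_of_ne_zero h1
  have hfdpos : 0 < cov k * (Ideal.absNorm I : ℝ) := by positivity
  obtain ⟨t₀, ht₀, hsoft⟩ := hsft (MS k) volume κ B' K hK 1 one_pos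
  have hfin0 : Finite (𝓞 k ⧸ I) := Ideal.finiteQuotientOfFreeOfNeBot I hI
  have hn0 : finrank ℚ k ≠ 0 := (Module.finrank_pos (R := ℚ) (M := k)).ne'
  filter_upwards [eventually_ge_atTop (t₀ ^ finrank ℚ k), eventually_gt_atTop (0 : ℝ)] with
    Z hZ hZ0
  -- the scale
  obtain ⟨t, htd⟩ : ∃ t : ℝ, t = Z ^ ((finrank ℚ k : ℝ)⁻¹) := ⟨_, rfl⟩
  have htpos : 0 < t := by rw [htd]; exact Real.rpow_pos_of_pos hZ0 _
  have htZ : t ^ finrank ℚ k = Z := by
    rw [htd]
    exact Real.rpow_inv_natCast_pow hZ0.le hn0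
  have ht : t₀ ≤ t := by
    rw [← pow_le_pow_iff_left₀ ht₀.le htpos.le hn0, htZ]
    exact hZ
  set T : Set (𝓞 k) := {m : 𝓞 k | Ideal.Quotient.mk I m ∈ S ∧
    av (mixedEmbedding k (m : k)) ∈ Φ.F ∧ nr (av (mixedEmbedding k (m : k))) ≤ Z} with hT
  have hTK : ∀ m ∈ T, t⁻¹ • mixedEmbedding k ((m : 𝓞 k) : k) ∈ K := by
    rintro m ⟨-, hm1, hm2⟩
    rw [hKd, mem_closedBall_zero_iff]
    refine norm_le_of_av _ _ (abs_nonneg _) fun v => ?_
    have h1 := coord_le Φ _ hm1 t htpos (hm2.trans htZ.symm.le) v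
    have h2 := (evs k).2.2.1 v t⁻¹ (mixedEmbedding k (m : k))
    have h3 : av (t⁻¹ • mixedEmbedding k (m : k)) v = t⁻¹ * av (mixedEmbedding k (m : k)) v := by
      rw [av, h2, norm_mul, Complex.norm_real, Real.norm_of_nonneg (by positivity)]
      rfl
    rw [h3, inv_mul_le_iff₀ htpos, mul_comm]
    exact h1
  have hbd : ∀ c ∈ S, {v ∈ T | Ideal.Quotient.mk I v = c}.Finite ∧
      ({v ∈ T | Ideal.Quotient.mk I v = c}.ncard : ℝ) ≤
      ((volume K).toReal + 1) * Z / (cov k * (Ideal.absNorm I : ℝ)) := by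
    intro c _
    obtain ⟨r, hr⟩ := Ideal.Quotient.mk_surjective c
    obtain ⟨hfin, hle⟩ := hsoft t ht (mixedEmbedding k ((r : 𝓞 k) : k))
    set Y : Set (MS k) := {y | y ∈ Submodule.span ℤ (Set.range B') ∧
      t⁻¹ • (mixedEmbedding k ((r : 𝓞 k) : k) + y) ∈ K} with hY
    set f : 𝓞 k → MS k := fun v => mixedEmbedding k ((v - r : 𝓞 k) : k) with hf
    have hmaps : ∀ v ∈ {v ∈ T | Ideal.Quotient.mk I v = c}, f v ∈ Y := by
      rintro v ⟨hvT, hvc⟩
      refine ⟨?_, ?_⟩
      · rw [hB']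
        refine ⟨v - r, ?_, rfl⟩
        rw [← Ideal.Quotient.eq, hr]
        exact hvc
      · have h1 : mixedEmbedding k ((r : 𝓞 k) : k) + f v = mixedEmbedding k (v : k) := by
          show mixedEmbedding k ((r : 𝓞 k) : k) + mixedEmbedding k ((v - r : 𝓞 k) : k) =
            mixedEmbedding k (v : k)
          rw [← map_add]
          congr 1
          rw [← map_add, add_sub_cancel]
        rw [h1]
        exact hTK v hvT
    have hinj : Set.InjOn f {v ∈ T | Ideal.Quotient.mk I v = c} := by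
      intro v _ v' _ hvv
      have h3 : ((v - r : 𝓞 k) : k) = ((v' - r : 𝓞 k) : k) := mixedEmbedding_injective k hvv
      have h4 : v - r = v' - r := RingOfIntegers.ext h3
      exact sub_left_injective h4
    have hfin' : {v ∈ T | Ideal.Quotient.mk I v = c}.Finite :=
      Set.Finite.of_injOn (f := f) hmaps hinj hfin
    refine ⟨hfin', ?_⟩
    rw [le_div_iff₀ hfdpos, ← hvol, ← htZ, ← mixedEmbedding.finrank]
    refine le_trans ?_ hle
    refine mul_le_mul_of_nonneg_right ?_ ENNReal.toReal_nonneg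
    exact_mod_cast Set.ncard_le_ncard_of_injOn f hmaps hinj hfin
  obtain ⟨hfin, hle⟩ :=
    LeoK.H29.fib_bound (fun v => Ideal.Quotient.mk I v) S T _ (fun v hv => hv.1) hbd
  refine hle.trans (le_of_eq ?_)
  field_simp

end Pool.Agent.LeoT.H89
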